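import Pool.Agent.N287.WF.Stm

/-!
# WF/A3: the abstract contradiction (lattices over a compact space)
-/

set_option autoImplicit false

open scoped Topology
open Set Filter

noncomputable section

namespace Pool.Agent.N170.WF

open Pool.Agent.N287.WF

universe v

/-- a basis of a group of vectors of the plane -/
def IsB (L : AddSubgroup (ℝ × ℝ)) (g₁ g₂ : ℝ × ℝ) : Prop :=
  g₁ ∈ L ∧ g₂ ∈ L ∧ det2 g₁ g₂ ≠ 0 ∧ ∀ γ ∈ L, ∃ m n : ℤ, γ = m • g₁ + n • g₂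

theorem zf (m : ℤ) (g : ℝ × ℝ) : (m • g).1 = m * g.1 := by
  rw [Prod.smul_fst, zsmul_eq_mul]

theorem zs (m : ℤ) (g : ℝ × ℝ) : (m • g).2 = m * g.2 := by
  rw [Prod.smul_snd, zsmul_eq_mul]

theorem det2_comb (g₁ g₂ : ℝ × ℝ) (a b c d : ℤ) :
    det2 (a • g₁ + b • g₂) (c • g₁ + d • g₂) = ((a * d - b * c : ℤ) : ℝ) * det2 g₁ g₂ := by
  simp only [det2, Prod.fst_add, Prod.snd_add, zf, zs]
  push_cast
  ring

theorem IsB.det_eq {L : AddSubgroup (ℝ × ℝ)} {g₁ g₂ h₁ h₂ : ℝ × ℝ} (hg : IsB L g₁ g₂)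
    (hh : IsB L h₁ h₂) : |det2 g₁ g₂| = |det2 h₁ h₂| := by
  obtain ⟨a, b, h1⟩ := hg.2.2.2 h₁ hh.1
  obtain ⟨c, d, h2⟩ := hg.2.2.2 h₂ hh.2.1
  obtain ⟨a', b', h3⟩ := hh.2.2.2 g₁ hg.1
  obtain ⟨c', d', h4⟩ := hh.2.2.2 g₂ hg.2.1
  have e1 : det2 h₁ h₂ = ((a * d - b * c : ℤ) : ℝ) * det2 g₁ g₂ := by
    rw [← det2_comb, ← h1, ← h2]
  have e2 : det2 g₁ g₂ = ((a' * d' - b' * c' : ℤ) : ℝ) * det2 h₁ h₂ := by
    rw [← det2_comb, ← h3, ← h4]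
  generalize a * d - b * c = j at e1
  generalize a' * d' - b' * c' = k at e2
  have e3 : ((k * j : ℤ) : ℝ) = 1 := by
    have : ((k * j : ℤ) : ℝ) * det2 g₁ g₂ = 1 * det2 g₁ g₂ := by
      rw [one_mul]
      push_cast
      rw [mul_assoc, ← e1, ← e2]
    exact mul_right_cancel₀ hg.2.2.1 this
  have e4 : k * j = 1 := by exact_mod_cast e3
  have e6 : |j| = 1 := by
    have h5 : IsUnit j := ⟨⟨j, k, by rw [mul_comm]; exact e4, e4⟩, rfl⟩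
    exact Int.isUnit_iff_abs_eq.1 h5
  rw [e1, abs_mul, ← Int.cast_abs, e6, Int.cast_one, one_mul]

section

variable {M : Type v} [TopologicalSpace M] {Λ : M → AddSubgroup (ℝ × ℝ)}

theorem sel_nhds {γ : M → ℝ × ℝ} {x₀ : M} (h : Sel Λ γ x₀) : ∀ᶠ x in 𝓝 x₀, Sel Λ γ x :=
  eventually_eventually_nhds.2 h

theorem sel_mem {γ : M → ℝ × ℝ} {x₀ : M} (h : Sel Λ γ x₀) : γ x₀ ∈ Λ x₀ :=
  (Filter.Eventually.self_of_nhds h).2

theorem sel_cont {γ : M → ℝ × ℝ} {x₀ : M} (h : Sel Λ γ x₀) : ContinuousAt γ x₀ :=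
  (Filter.Eventually.self_of_nhds h).1

/-- uniqueness of selections -/
theorem sel_unique (hL : LB Λ) {γ γ' : M → ℝ × ℝ} {x₀ : M} (h : Sel Λ γ x₀) (h' : Sel Λ γ' x₀)
    (h0 : γ x₀ = γ' x₀) : ∀ᶠ x in 𝓝 x₀, γ x = γ' x := by
  obtain ⟨ε, hε, hd⟩ := hL.disc
  have h1 : ContinuousAt (fun x => ‖γ x - γ' x‖) x₀ :=
    ((sel_cont h).sub (sel_cont h')).norm
  have h2 : ∀ᶠ x in 𝓝 x₀, ‖γ x - γ' x‖ < ε := by
    refine h1.eventually_lt_const ?_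
    show ‖γ x₀ - γ' x₀‖ < ε
    rw [h0, sub_self, norm_zero]
    exact hε
  filter_upwards [h2, h, h'] with x hx h3 h4
  exact sub_eq_zero.1 (hd x _ ((Λ x).sub_mem h3.2 h4.2) hx)

theorem sel_comb {γ γ' : M → ℝ × ℝ} {x₀ : M} (h : Sel Λ γ x₀) (h' : Sel Λ γ' x₀) (m n : ℤ) :
    Sel Λ (fun x => m • γ x + n • γ' x) x₀ := by
  filter_upwards [h, h'] with x h1 h2
  refine ⟨?_, (Λ x).add_mem ((Λ x).zsmul_mem h1.2 m) ((Λ x).zsmul_mem h2.2 n)⟩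
  exact (h1.1.const_smul m).add (h2.1.const_smul n)

theorem ne_of_basis (hL : LB Λ) {x : M} {g₁ g₂ : ℝ × ℝ} (h2 : g₂ ∈ Λ x) (hd : det2 g₁ g₂ ≠ 0) :
    g₂.2 ≠ 0 := by
  intro h0
  have h3 : g₂.1 = 0 := hL.per x g₂.1 (by
    have : g₂ = (g₂.1, 0) := Prod.ext rfl h0
    rw [← this]
    exact h2)
  apply hd
  unfold det2
  rw [h0, h3, mul_zero, mul_zero, sub_zero]

theorem irr_of_basis (hL : LB Λ) {x : M} {g₁ g₂ : ℝ × ℝ} (h1 : g₁ ∈ Λ x) (h2 : g₂ ∈ Λ x)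
    (hd : det2 g₁ g₂ ≠ 0) : Irrational (g₁.2 / g₂.2) := by
  have hne := ne_of_basis hL h2 hd
  rintro ⟨q, hq⟩
  have hq0 : (q.den : ℝ) ≠ 0 := by
    have := q.den_ne_zero
    exact_mod_cast this
  have e1 : (q.den : ℝ) * g₁.2 = q.num * g₂.2 := by
    have : (q : ℝ) = q.num / q.den := by
      exact_mod_cast (Rat.num_div_den q).symm
    rw [this, div_eq_div_iff hq0 hne] at hq
    linarith
  have hm : (q.den : ℤ) • g₁ - q.num • g₂ ∈ Λ x :=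
    (Λ x).sub_mem ((Λ x).zsmul_mem h1 _) ((Λ x).zsmul_mem h2 _)
  have e2 : ((q.den : ℤ) • g₁ - q.num • g₂).2 = 0 := by
    simp only [Prod.snd_sub, zs, Int.cast_natCast]
    linarith
  have e3 : ((q.den : ℤ) • g₁ - q.num • g₂).1 = 0 := hL.per x _ (by
    have : (q.den : ℤ) • g₁ - q.num • g₂ = (((q.den : ℤ) • g₁ - q.num • g₂).1, 0) :=
      Prod.ext rfl e2
    rw [← this]
    exact hm)
  simp only [Prod.fst_sub, zf, Int.cast_natCast] at e3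
  apply hd
  have : (q.den : ℝ) * det2 g₁ g₂ = 0 := by
    unfold det2
    have e4 : (q.den : ℝ) * g₁.1 = q.num * g₂.1 := by linarith
    calc (q.den : ℝ) * (g₁.1 * g₂.2 - g₁.2 * g₂.1) =
        (q.den * g₁.1) * g₂.2 - (q.den * g₁.2) * g₂.1 := by ring
      _ = 0 := by rw [e4, e1]; ring
  exact (mul_eq_zero.1 this).resolve_left hq0

/-- a preconnected set of irrational numbers has at most one point -/
theorem precon_irr {S : Set ℝ} (hS : IsPreconnected S) (h : ∀ y ∈ S, Irrational y) {a b : ℝ}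
    (ha : a ∈ S) (hb : b ∈ S) : a = b := by
  by_contra hab
  wlog hlt : a < b generalizing a b
  · exact this hb ha (Ne.symm hab) (lt_of_le_of_ne (not_lt.1 hlt) (Ne.symm hab))
  obtain ⟨q, h1, h2⟩ := exists_rat_btwn hlt
  exact h q (hS.ordConnected.out ha hb ⟨h1.le, h2.le⟩) ⟨q, rfl⟩

/-- the local structure -/
theorem local_struct [LocallyConnectedSpace M] (hA1 : BasisStm) (hA2 : LocalBasisStm.{v})
    (hL : LB Λ)
    (hconst : ∀ (x₀ : M) (γ γ' : M → ℝ × ℝ) (ρ : ℝ), Sel Λ γ x₀ → Sel Λ γ' x₀ →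
      (∀ᶠ x in 𝓝 x₀, (γ x).2 = ρ * (γ' x).2) →
      ∀ᶠ x in 𝓝 x₀, (γ x).1 - ρ * (γ' x).1 = (γ x₀).1 - ρ * (γ' x₀).1) (x₀ : M) :
    ∃ (g₁ g₂ : M → ℝ × ℝ) (ρ d : ℝ), Sel Λ g₁ x₀ ∧ Sel Λ g₂ x₀ ∧
      (∀ᶠ x in 𝓝 x₀, IsB (Λ x) (g₁ x) (g₂ x) ∧ (g₁ x).2 = ρ * (g₂ x).2 ∧
        det2 (g₁ x) (g₂ x) = d * (g₂ x).2) := by
  obtain ⟨ε, hε, hd⟩ := hL.disc
  obtain ⟨b₁, hb₁, b₂, hb₂, hdet, hspan⟩ := hA1 (Λ x₀) ⟨ε, hε, hd x₀⟩ (hL.per x₀) (hL.small x₀)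
  obtain ⟨g₁, e1, s1⟩ := hL.sel x₀ b₁ hb₁
  obtain ⟨g₂, e2, s2⟩ := hL.sel x₀ b₂ hb₂
  have hB := hA2 M Λ hL.closed hL.disc x₀ g₁ g₂ s1 s2 (by rw [e1, e2]; exact hdet)
    (by rw [e1, e2]; exact hspan)
  have hU : ∀ᶠ x in 𝓝 x₀, (ContinuousAt g₁ x ∧ g₁ x ∈ Λ x) ∧ (ContinuousAt g₂ x ∧ g₂ x ∈ Λ x) ∧
      (det2 (g₁ x) (g₂ x) ≠ 0 ∧ ∀ γ ∈ Λ x, ∃ m n : ℤ, γ = m • g₁ x + n • g₂ x) :=
    s1.and (s2.and hB)
  obtain ⟨V, hVU, hVo, hV0, hVc⟩ := locallyConnectedSpace_iff_subsets_isOpen_isConnected.1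
    inferInstance x₀ _ hU
  have hr : ∀ x ∈ V, (g₁ x).2 / (g₂ x).2 = (g₁ x₀).2 / (g₂ x₀).2 := by
    intro x hx
    have hc : ContinuousOn (fun x => (g₁ x).2 / (g₂ x).2) V := by
      intro y hy
      have h1 := hVU hy
      have h2 := ne_of_basis hL h1.2.1.2 h1.2.2.1
      exact ((continuous_snd.continuousAt.comp h1.1.1).div
        (continuous_snd.continuousAt.comp h1.2.1.1) h2).continuousWithinAt
    have hp := hVc.isPreconnected.image _ hc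
    refine precon_irr hp ?_ (mem_image_of_mem _ hx) (mem_image_of_mem _ hV0)
    rintro _ ⟨y, hy, rfl⟩
    have h1 := hVU hy
    exact irr_of_basis hL h1.1.2 h1.2.1.2 h1.2.2.1
  set ρ := (g₁ x₀).2 / (g₂ x₀).2 with hρ
  have hVn : V ∈ 𝓝 x₀ := hVo.mem_nhds hV0
  have h3 : ∀ᶠ x in 𝓝 x₀, (g₁ x).2 = ρ * (g₂ x).2 := by
    filter_upwards [hVn] with x hx
    have h1 := hVU hx
    have h2 := ne_of_basis hL h1.2.1.2 h1.2.2.1
    rw [← hr x hx, div_mul_cancel₀ _ h2]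
  have h4 := hconst x₀ g₁ g₂ ρ s1 s2 h3
  refine ⟨g₁, g₂, ρ, (g₁ x₀).1 - ρ * (g₂ x₀).1, s1, s2, ?_⟩
  filter_upwards [hVn, h3, h4] with x hx h5 h6
  have h1 := hVU hx
  refine ⟨⟨h1.1.2, h1.2.1.2, h1.2.2.1, h1.2.2.2⟩, h5, ?_⟩
  rw [← h6]
  unfold det2
  rw [h5]
  ring

end

theorem abs_false (hA1 : BasisStm) (hA2 : LocalBasisStm.{v}) : AbsStm.{v} := by
  intro M _ _ _ _ _ Λ hL hconst hdecr
  obtain ⟨ε, hε, hd⟩ := hL.disc
  have hbas : ∀ x, ∃ b : (ℝ × ℝ) × (ℝ × ℝ), IsB (Λ x) b.1 b.2 := by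
    intro x
    obtain ⟨b₁, hb₁, b₂, hb₂, hdet, hspan⟩ := hA1 (Λ x) ⟨ε, hε, hd x⟩ (hL.per x) (hL.small x)
    exact ⟨(b₁, b₂), hb₁, hb₂, hdet, hspan⟩
  choose b hb using hbas
  set A : M → ℝ := fun x => |det2 (b x).1 (b x).2| with hA
  have hApos : ∀ x, 0 < A x := fun x => abs_pos.2 (hb x).2.2.1
  have hloc := local_struct hA1 hA2 hL hconst
  have hAc : Continuous A := by
    rw [continuous_iff_continuousAt]
    intro x₀
    obtain ⟨g₁, g₂, ρ, d, s1, s2, h⟩ := hloc x₀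
    have h1 : A =ᶠ[𝓝 x₀] fun x => |det2 (g₁ x) (g₂ x)| := by
      filter_upwards [h] with x hx
      exact (hb x).det_eq hx.1
    refine ContinuousAt.congr ?_ h1.symm
    have c1 := sel_cont s1
    have c2 := sel_cont s2
    unfold det2
    exact (((continuous_fst.continuousAt.comp c1).mul (continuous_snd.continuousAt.comp c2)).sub
      ((continuous_snd.continuousAt.comp c1).mul (continuous_fst.continuousAt.comp c2))).abs
  have hV : ∀ (x₀ : M) (g : M → ℝ × ℝ), Sel Λ g x₀ →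
      ∀ᶠ x in 𝓝 x₀, |(g x).2| * A x₀ = |(g x₀).2| * A x := by
    intro x₀ g sg
    obtain ⟨g₁, g₂, ρ, d, s1, s2, h⟩ := hloc x₀
    have h0 := Filter.Eventually.self_of_nhds h
    obtain ⟨m, n, hmn⟩ := h0.1.2.2.2 (g x₀) (sel_mem sg)
    have h1 := sel_unique hL sg (sel_comb s1 s2 m n) hmn
    have key : ∀ x, IsB (Λ x) (g₁ x) (g₂ x) ∧ (g₁ x).2 = ρ * (g₂ x).2 ∧
        det2 (g₁ x) (g₂ x) = d * (g₂ x).2 → g x = m • g₁ x + n • g₂ x →
        |(g x).2| = |m * ρ + n| * |(g₂ x).2| ∧ A x = |d| * |(g₂ x).2| := by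
      intro x h2 h3
      constructor
      · rw [h3, ← abs_mul]
        simp only [Prod.snd_add, zs]
        rw [h2.2.1]
        congr 1
        ring
      · rw [← abs_mul, ← h2.2.2]
        exact (hb x).det_eq h2.1
    obtain ⟨k1, k2⟩ := key x₀ h0 hmn
    filter_upwards [h, h1] with x hx h2
    obtain ⟨k3, k4⟩ := key x hx h2
    rw [k1, k2, k3, k4]
    ring
  obtain ⟨xm, -, hm⟩ := isCompact_univ.exists_isMinOn univ_nonempty hAc.continuousOn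
  obtain ⟨xM, -, hM⟩ := isCompact_univ.exists_isMaxOn univ_nonempty hAc.continuousOn
  have hm' : ∀ x, A xm ≤ A x := fun x => hm (mem_univ x)
  have hM' : ∀ x, A x ≤ A xM := fun x => hM (mem_univ x)
  obtain ⟨x₁⟩ := ‹Nonempty M›
  have hmp := hApos xm
  have hMp := hApos xM
  obtain ⟨g₁, hg₁, hg₁n, hg₁l⟩ := hL.small x₁ (ε * A xm / A xM) (by positivity)
  set k := |g₁.2| / A x₁ with hk
  have hkp : 0 < k := div_pos (abs_pos.2 hg₁n) (hApos x₁)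
  set S : Set (M × (ℝ × ℝ)) := {p | p.2 ∈ Λ p.1 ∧ |p.2.2| = k * A p.1 ∧ |p.2.1| ≤ |g₁.1|} with hS
  have hSc : IsCompact S := by
    have hcl : IsClosed S := by
      have c1 : IsClosed {p : M × (ℝ × ℝ) | |p.2.2| = k * A p.1} :=
        isClosed_eq (by fun_prop) (by fun_prop)
      have c2 : IsClosed {p : M × (ℝ × ℝ) | |p.2.1| ≤ |g₁.1|} :=
        isClosed_le (by fun_prop) (by fun_prop)
      exact hL.closed.inter (c1.inter c2)
    have hK : IsCompact ((univ : Set M) ×ˢ ((Icc (-|g₁.1|) |g₁.1|) ×ˢ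
        (Icc (-(k * A xM)) (k * A xM)))) :=
      isCompact_univ.prod (isCompact_Icc.prod isCompact_Icc)
    refine hK.of_isClosed_subset hcl ?_
    rintro ⟨x, g⟩ ⟨h1, h2, h3⟩
    refine ⟨mem_univ _, abs_le.1 h3, abs_le.1 ?_⟩
    show |g.2| ≤ _
    have h2' : |g.2| = k * A x := h2
    rw [h2']
    exact mul_le_mul_of_nonneg_left (hM' x) hkp.le
  have hSn : S.Nonempty := by
    refine ⟨(x₁, g₁), hg₁, ?_, le_rfl⟩
    show |g₁.2| = k * A x₁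
    rw [hk, div_mul_cancel₀ _ (hApos x₁).ne']
  obtain ⟨⟨x₀, g₀⟩, hp0, hmin⟩ := hSc.exists_isMinOn hSn
    (f := fun p : M × (ℝ × ℝ) => |p.2.1|) (by fun_prop)
  obtain ⟨h1, h2, h3⟩ := hp0
  change g₀ ∈ Λ x₀ at h1
  change |g₀.2| = k * A x₀ at h2
  change |g₀.1| ≤ |g₁.1| at h3
  have hg2 : g₀.2 ≠ 0 := by
    rw [← abs_pos, h2]
    exact mul_pos hkp (hApos x₀)
  by_cases hg1 : g₀.1 = 0
  · have h4 : ‖g₀‖ < ε := by
      rw [Prod.norm_def, Real.norm_eq_abs, Real.norm_eq_abs, hg1, abs_zero,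
        max_eq_right (abs_nonneg _), h2, hk]
      have h5 : |g₁.2| < ε * A xm / A xM := hg₁l
      have h6 : A xm ≤ A x₁ := hm' x₁
      have h7 : A x₀ ≤ A xM := hM' x₀
      calc |g₁.2| / A x₁ * A x₀ ≤ |g₁.2| / A xm * A xM := by
            apply mul_le_mul _ h7 (hApos x₀).le (by positivity)
            exact div_le_div_of_nonneg_left (abs_nonneg _) hmp h6
        _ < ε * A xm / A xM / A xm * A xM := by
            apply mul_lt_mul_of_pos_right _ hMp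
            exact div_lt_div_of_pos_right h5 hmp
        _ = ε := by
            field_simp
    have h5 := hd x₀ g₀ h1 h4
    exact hg2 (by rw [h5]; rfl)
  · obtain ⟨γ, e0, sγ⟩ := hL.sel x₀ g₀ h1
    refine hdecr x₀ γ sγ (by rw [e0]; exact hg2) (by rw [e0]; exact hg1) ?_
    filter_upwards [hV x₀ γ sγ, sγ] with x hx hx2
    rw [e0] at hx ⊢
    rcases le_or_gt |(γ x).1| |g₁.1| with h4 | h4
    · have hin : (x, γ x) ∈ S := by
        refine ⟨hx2.2, ?_, h4⟩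
        show |(γ x).2| = k * A x
        rw [h2] at hx
        have h5 : |(γ x).2| * A x₀ = (k * A x) * A x₀ := by
          rw [hx]
          ring
        exact mul_right_cancel₀ (hApos x₀).ne' h5
      exact hmin hin
    · exact h3.trans h4.le

end Pool.Agent.N170.WF
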